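import Mathlib

/-!
# The pointwise algebra of the Bochner inequality
-/

set_option autoImplicit false

open Filter Topology Finset

namespace Pool.Agent.H20.Stab

variable {n : ℕ}

/-- The integrand. -/
noncomputable def Phi (M : Fin n → Fin n → ℝ) (dM : Fin n → Fin n → Fin n → ℝ) (φ : ℝ)
    (dφ : Fin n → ℝ) (q : ℝ) : ℝ :=
  ∑ j, ∑ l, (φ * (M j l / q ^ 2) *
      ((∑ i, dM i i j) * (∑ k, dM k k l) - ∑ i, ∑ k, dM i k j * dM k i l)
    + ∑ i, (dφ i * (M j l / q ^ 2) +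
        φ * (dM i j l / q ^ 2 - 2 * M j l * (∑ m, dM i m m) / q ^ 3)) *
        (M i j * (∑ k, dM k k l) - ∑ k, M k j * dM k i l))

/-- Continuity. -/
lemma Phi_tendsto {M : ℕ → Fin n → Fin n → ℝ} {dM : ℕ → Fin n → Fin n → Fin n → ℝ} {q : ℕ → ℝ}
    {M0 : Fin n → Fin n → ℝ} {dM0 : Fin n → Fin n → Fin n → ℝ} {q0 : ℝ} (φ : ℝ) (dφ : Fin n → ℝ)
    (hM : ∀ i j, Tendsto (fun m => M m i j) atTop (𝓝 (M0 i j)))
    (hdM : ∀ k i j, Tendsto (fun m => dM m k i j) atTop (𝓝 (dM0 k i j)))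
    (hq : Tendsto q atTop (𝓝 q0)) (hq0 : q0 ≠ 0) :
    Tendsto (fun m => Phi (M m) (dM m) φ dφ (q m)) atTop (𝓝 (Phi M0 dM0 φ dφ q0)) := by
  unfold Phi
  have hq2 : q0 ^ 2 ≠ 0 := pow_ne_zero 2 hq0
  have hq3 : q0 ^ 3 ≠ 0 := pow_ne_zero 3 hq0
  have h1 : ∀ l, Tendsto (fun m => ∑ k, dM m k k l) atTop (𝓝 (∑ k, dM0 k k l)) :=
    fun l => tendsto_finsetSum _ fun k _ => hdM k k l
  have h2 : ∀ i, Tendsto (fun m => ∑ k, dM m i k k) atTop (𝓝 (∑ k, dM0 i k k)) :=
    fun i => tendsto_finsetSum _ fun k _ => hdM i k k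
  refine tendsto_finsetSum _ fun j _ => tendsto_finsetSum _ fun l _ => ?_
  refine Tendsto.add ?_ (tendsto_finsetSum _ fun i _ => ?_)
  · refine Tendsto.mul (Tendsto.mul tendsto_const_nhds ((hM j l).div (hq.pow 2) hq2)) ?_
    refine Tendsto.sub ((h1 j).mul (h1 l)) ?_
    exact tendsto_finsetSum _ fun i _ => tendsto_finsetSum _ fun k _ => (hdM i k j).mul (hdM k i l)
  · refine Tendsto.mul (Tendsto.add (Tendsto.mul tendsto_const_nhds ((hM j l).div (hq.pow 2) hq2))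
      (Tendsto.mul tendsto_const_nhds (Tendsto.sub ((hdM i j l).div (hq.pow 2) hq2) ?_))) ?_
    · exact Tendsto.div (Tendsto.mul (Tendsto.mul tendsto_const_nhds (hM j l)) (h2 i))
        (hq.pow 3) hq3
    · refine Tendsto.sub ((hM i j).mul (h1 l)) ?_
      exact tendsto_finsetSum _ fun k _ => (hM k j).mul (hdM k i l)

/-- The bound. -/
lemma Phi_bound {M : Fin n → Fin n → ℝ} {dM : Fin n → Fin n → Fin n → ℝ} {φ : ℝ}
    {dφ : Fin n → ℝ} {K G δ c : ℝ} (hK : 0 ≤ K) (hG : 0 ≤ G) (hδ : 0 < δ)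
    (hM : ∀ i j, |M i j| ≤ K) (hdM : ∀ k i j, dM k i j ^ 2 ≤ K * G)
    (hφ : |φ| ≤ c) (hdφ : ∀ i, |dφ i| ≤ c) :
    |Phi M dM φ dφ (K + δ)| ≤ (20 * (n + 1) ^ 6 : ℝ) * c * (K + G) := by
  have hc : 0 ≤ c := (abs_nonneg _).trans hφ
  set q := K + δ with hq
  have hqpos : 0 < q := by positivity
  have hKq : K ≤ q := by linarith
  set X := Real.sqrt (K * G) with hX
  have hX0 : 0 ≤ X := Real.sqrt_nonneg _
  have hX2 : X ^ 2 = K * G := Real.sq_sqrt (mul_nonneg hK hG)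
  have hXKG : X ≤ K + G := by
    rw [hX]
    apply Real.sqrt_le_iff.2
    refine ⟨by positivity, by nlinarith [mul_nonneg hK hG, sq_nonneg K, sq_nonneg G]⟩
  have hdM' : ∀ k i j, |dM k i j| ≤ X := fun k i j => Real.abs_le_sqrt (hdM k i j)
  have hN0 : (0 : ℝ) ≤ n := Nat.cast_nonneg n
  have hsum1 : ∀ (a : Fin n → ℝ) (b : ℝ), (∀ k, |a k| ≤ b) → |∑ k, a k| ≤ n * b := by
    intro a b hab
    calc |∑ k, a k| ≤ ∑ k, |a k| := Finset.abs_sum_le_sum_abs _ _
      _ ≤ ∑ _k : Fin n, b := Finset.sum_le_sum fun k _ => hab k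
      _ = n * b := by rw [Finset.sum_const, Finset.card_univ, Fintype.card_fin, nsmul_eq_mul]
  have hD : ∀ l, |∑ k, dM k k l| ≤ n * X := fun l => hsum1 _ _ fun k => hdM' k k l
  have hDK : ∀ i, |∑ m, dM i m m| ≤ n * X := fun l => hsum1 _ _ fun k => hdM' l k k
  -- ratios
  have r1 : K / q ≤ 1 := (div_le_one hqpos).2 hKq
  have r1' : 0 ≤ K / q := by positivity
  set θ := K / q with hθ
  have hMq : ∀ i j, |M i j / q ^ 2| ≤ θ / q := by
    intro i j
    rw [abs_div, abs_of_pos (by positivity : (0 : ℝ) < q ^ 2), hθ, div_div, ← pow_two]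
    exact div_le_div_of_nonneg_right (hM i j) (by positivity)
  have hXX : X ^ 2 / q ≤ G := by
    rw [hX2, div_le_iff₀ hqpos]
    nlinarith
  have hb1 : ∀ j l, |(∑ i, dM i i j) * (∑ k, dM k k l) - ∑ i, ∑ k, dM i k j * dM k i l| ≤
      2 * n ^ 2 * X ^ 2 := by
    intro j l
    have e1 : |(∑ i, dM i i j) * (∑ k, dM k k l)| ≤ (n * X) * (n * X) := by
      rw [abs_mul]
      exact mul_le_mul (hD j) (hD l) (abs_nonneg _) (by positivity)
    have e2 : |∑ i, ∑ k, dM i k j * dM k i l| ≤ n * (n * (X * X)) := by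
      apply hsum1; intro i
      apply hsum1; intro k
      rw [abs_mul]
      exact mul_le_mul (hdM' _ _ _) (hdM' _ _ _) (abs_nonneg _) hX0
    calc _ ≤ |(∑ i, dM i i j) * (∑ k, dM k k l)| + |∑ i, ∑ k, dM i k j * dM k i l| := abs_sub _ _
      _ ≤ (n * X) * (n * X) + n * (n * (X * X)) := add_le_add e1 e2
      _ = 2 * n ^ 2 * X ^ 2 := by ring
  have hZ : ∀ i j l, |M i j * (∑ k, dM k k l) - ∑ k, M k j * dM k i l| ≤ 2 * n * (K * X) := by
    intro i j l
    have e1 : |M i j * (∑ k, dM k k l)| ≤ K * (n * X) := by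
      rw [abs_mul]
      exact mul_le_mul (hM i j) (hD l) (abs_nonneg _) hK
    have e2 : |∑ k, M k j * dM k i l| ≤ n * (K * X) := by
      apply hsum1; intro k
      rw [abs_mul]
      exact mul_le_mul (hM _ _) (hdM' _ _ _) (abs_nonneg _) hK
    calc _ ≤ |M i j * (∑ k, dM k k l)| + |∑ k, M k j * dM k i l| := abs_sub _ _
      _ ≤ K * (n * X) + n * (K * X) := add_le_add e1 e2
      _ = 2 * n * (K * X) := by ring
  have hA : ∀ j l i, |dφ i * (M j l / q ^ 2) +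
        φ * (dM i j l / q ^ 2 - 2 * M j l * (∑ m, dM i m m) / q ^ 3)| ≤
        c * (θ / q) + c * (X / q ^ 2 + 2 * n * (θ * X / q ^ 2)) := by
    intro j l i
    have e1 : |dφ i * (M j l / q ^ 2)| ≤ c * (θ / q) := by
      rw [abs_mul]
      exact mul_le_mul (hdφ i) (hMq j l) (abs_nonneg _) hc
    have e2 : |dM i j l / q ^ 2| ≤ X / q ^ 2 := by
      rw [abs_div, abs_of_pos (by positivity : (0 : ℝ) < q ^ 2)]
      exact div_le_div_of_nonneg_right (hdM' _ _ _) (by positivity)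
    have e3 : |2 * M j l * (∑ m, dM i m m) / q ^ 3| ≤ 2 * n * (θ * X / q ^ 2) := by
      rw [abs_div, abs_of_pos (by positivity : (0 : ℝ) < q ^ 3), abs_mul, abs_mul, abs_two]
      have e4 : 2 * |M j l| * |∑ m, dM i m m| ≤ 2 * K * (n * X) :=
        mul_le_mul (mul_le_mul_of_nonneg_left (hM j l) (by norm_num)) (hDK i) (abs_nonneg _)
          (by positivity)
      calc _ ≤ 2 * K * (n * X) / q ^ 3 := div_le_div_of_nonneg_right e4 (by positivity)
        _ = 2 * n * (θ * X / q ^ 2) := by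
            rw [hθ]; field_simp
    have e5 : |φ * (dM i j l / q ^ 2 - 2 * M j l * (∑ m, dM i m m) / q ^ 3)| ≤
        c * (X / q ^ 2 + 2 * n * (θ * X / q ^ 2)) := by
      rw [abs_mul]
      exact mul_le_mul hφ ((abs_sub _ _).trans (add_le_add e2 e3)) (abs_nonneg _) hc
    exact (abs_add_le _ _).trans (add_le_add e1 e5)
  have hθ1 : θ ^ 2 ≤ 1 := pow_le_one₀ r1' r1
  -- the two kinds of terms
  have t1 : ∀ j l, |φ * (M j l / q ^ 2) *
      ((∑ i, dM i i j) * (∑ k, dM k k l) - ∑ i, ∑ k, dM i k j * dM k i l)| ≤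
      c * (2 * n ^ 2) * G := by
    intro j l
    rw [abs_mul, abs_mul]
    calc |φ| * |M j l / q ^ 2| * |(∑ i, dM i i j) * (∑ k, dM k k l) - ∑ i, ∑ k, dM i k j * dM k i l|
        ≤ c * (θ / q) * (2 * n ^ 2 * X ^ 2) := by
          apply mul_le_mul _ (hb1 j l) (abs_nonneg _) (by positivity)
          exact mul_le_mul hφ (hMq j l) (abs_nonneg _) hc
      _ = c * (2 * n ^ 2) * (θ * (X ^ 2 / q)) := by ring
      _ ≤ c * (2 * n ^ 2) * (1 * G) := by
          apply mul_le_mul_of_nonneg_left _ (by positivity)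
          exact mul_le_mul r1 hXX (by positivity) (by norm_num)
      _ = c * (2 * n ^ 2) * G := by ring
  have t2 : ∀ j l i, |(dφ i * (M j l / q ^ 2) +
        φ * (dM i j l / q ^ 2 - 2 * M j l * (∑ m, dM i m m) / q ^ 3)) *
        (M i j * (∑ k, dM k k l) - ∑ k, M k j * dM k i l)| ≤
        c * (2 * n) * ((K + G) + G + 2 * n * G) := by
    intro j l i
    rw [abs_mul]
    calc _ ≤ (c * (θ / q) + c * (X / q ^ 2 + 2 * n * (θ * X / q ^ 2))) * (2 * n * (K * X)) :=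
          mul_le_mul (hA j l i) (hZ i j l) (abs_nonneg _) (by positivity)
      _ = c * (2 * n) * (θ ^ 2 * X + θ * (X ^ 2 / q) + 2 * n * (θ ^ 2 * (X ^ 2 / q))) := by
          rw [hθ]; field_simp; ring
      _ ≤ c * (2 * n) * (1 * (K + G) + 1 * G + 2 * n * (1 * G)) := by
          apply mul_le_mul_of_nonneg_left _ (by positivity)
          apply add_le_add
          · apply add_le_add
            · exact mul_le_mul hθ1 hXKG hX0 (by norm_num)
            · exact mul_le_mul r1 hXX (by positivity) (by norm_num)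
          · apply mul_le_mul_of_nonneg_left _ (by positivity)
            exact mul_le_mul hθ1 hXX (by positivity) (by norm_num)
      _ = _ := by ring
  have htot : |Phi M dM φ dφ q| ≤
      n * (n * (c * (2 * n ^ 2) * G + n * (c * (2 * n) * ((K + G) + G + 2 * n * G)))) := by
    unfold Phi
    apply hsum1; intro j
    apply hsum1; intro l
    refine (abs_add_le _ _).trans (add_le_add (t1 j l) ?_)
    apply hsum1; intro i
    exact t2 j l i
  refine htot.trans ?_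
  have hp : (n : ℝ) * (n * (c * (2 * n ^ 2) * G + n * (c * (2 * n) * ((K + G) + G + 2 * n * G)))) =
      c * (2 * n ^ 4 * G + 2 * n ^ 4 * ((K + G) + G + 2 * n * G)) := by ring
  rw [hp]
  have h1 : (n : ℝ) ^ 4 ≤ (n + 1) ^ 6 := by
    calc (n : ℝ) ^ 4 ≤ (n + 1) ^ 4 := pow_le_pow_left₀ hN0 (by linarith) 4
      _ ≤ (n + 1) ^ 6 := pow_le_pow_right₀ (by linarith) (by norm_num)
  have h2 : (n : ℝ) ^ 4 * n ≤ (n + 1) ^ 6 := by
    calc (n : ℝ) ^ 4 * (n : ℝ) = (n : ℝ) ^ 5 := by ring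
      _ ≤ ((n : ℝ) + 1) ^ 5 := pow_le_pow_left₀ hN0 (by linarith) 5
      _ ≤ ((n : ℝ) + 1) ^ 6 := pow_le_pow_right₀ (by linarith) (by norm_num)
  set P : ℝ := (n + 1) ^ 6 with hP
  have hKG : G ≤ K + G := by linarith
  have h3 : 2 * (n : ℝ) ^ 4 * G + 2 * n ^ 4 * ((K + G) + G + 2 * n * G) ≤ 20 * P * (K + G) := by
    have a1 : (n : ℝ) ^ 4 * G ≤ P * (K + G) := mul_le_mul h1 hKG hG (by positivity)
    have a2 : (n : ℝ) ^ 4 * (K + G) ≤ P * (K + G) := mul_le_mul_of_nonneg_right h1 (by positivity)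
    have a3 : (n : ℝ) ^ 4 * n * G ≤ P * (K + G) := mul_le_mul h2 hKG hG (by positivity)
    have a4 : 0 ≤ P * (K + G) := by positivity
    nlinarith
  calc c * (2 * n ^ 4 * G + 2 * n ^ 4 * ((K + G) + G + 2 * n * G)) ≤ c * (20 * P * (K + G)) :=
        mul_le_mul_of_nonneg_left h3 hc
    _ = 20 * P * c * (K + G) := by ring

end Pool.Agent.H20.Stab
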