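import Mathlib
import Pool.Agent.H20.Stab.Phi

/-!
# Evaluation of the integrand in the limit
-/

set_option autoImplicit false

open Finset

namespace Pool.Agent.H20.Stab

variable {n : ℕ}

lemma sum4 (f : Fin n → Fin n → Fin n → Fin n → ℝ) :
    ∑ j, ∑ l, ∑ i, ∑ k, f j l i k = ∑ i, ∑ k, ∑ j, ∑ l, f j l i k := by
  calc ∑ j, ∑ l, ∑ i, ∑ k, f j l i k = ∑ j, ∑ i, ∑ l, ∑ k, f j l i k :=
        sum_congr rfl fun j _ => sum_comm
    _ = ∑ i, ∑ j, ∑ l, ∑ k, f j l i k := sum_comm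
    _ = ∑ i, ∑ j, ∑ k, ∑ l, f j l i k :=
        sum_congr rfl fun i _ => sum_congr rfl fun j _ => sum_comm
    _ = ∑ i, ∑ k, ∑ j, ∑ l, f j l i k := sum_congr rfl fun i _ => sum_comm

lemma sum3 (f : Fin n → Fin n → Fin n → ℝ) :
    ∑ j, ∑ l, ∑ i, f j l i = ∑ i, ∑ j, ∑ l, f j l i := by
  calc ∑ j, ∑ l, ∑ i, f j l i = ∑ j, ∑ i, ∑ l, f j l i :=
        sum_congr rfl fun j _ => sum_comm
    _ = ∑ i, ∑ j, ∑ l, f j l i := sum_comm

section

variable (s q φ : ℝ) (dφ ν : Fin n → ℝ) (Z : Fin n → Fin n → ℝ)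

/-- `α = Zν`. -/
def al (ν : Fin n → ℝ) (Z : Fin n → Fin n → ℝ) (i : Fin n) : ℝ := ∑ m, Z i m * ν m

variable (hν : ∑ i, ν i * ν i = 1) (hZ : ∀ i j, Z i j = Z j i) (htr : ∑ i, Z i i = 0)

include hν hZ htr

lemma Phi_eval :
    Phi (fun i j => s ^ 2 * (ν i * ν j)) (fun k i j => s * (Z k i * ν j + Z k j * ν i)) φ dφ q =
      - (φ * (s ^ 4 / q ^ 2) * (∑ i, ∑ k, Z i k * Z i k + 2 * ∑ i, al ν Z i * al ν Z i))
      + ∑ i, (- (s ^ 3 * al ν Z i)) * (dφ i * (s ^ 2 / q ^ 2) +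
          φ * (2 * s * al ν Z i / q ^ 2 - 4 * s ^ 3 * al ν Z i / q ^ 3)) := by
  set a := al ν Z with ha
  have ha' : ∀ i, ∑ m, ν m * Z m i = a i := by
    intro i
    rw [ha]; unfold al
    exact sum_congr rfl fun m _ => by rw [hZ m i, mul_comm]
  have ha'' : ∀ i, ∑ m, Z i m * ν m = a i := fun i => rfl
  have hD : ∀ j, ∑ i, s * (Z i i * ν j + Z i j * ν i) = s * a j := by
    intro j
    rw [← mul_sum, sum_add_distrib, ← sum_mul, htr, zero_mul, zero_add, ← ha' j]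
    congr 1
    exact sum_congr rfl fun i _ => mul_comm _ _
  have hT : ∀ i, ∑ m, s * (Z i m * ν m + Z i m * ν m) = 2 * s * a i := by
    intro i
    rw [← mul_sum, sum_add_distrib, ha'']
    ring
  have hX : ∀ i k, ∑ j, ν j * (s * (Z i k * ν j + Z i j * ν k)) = s * (Z i k + a i * ν k) := by
    intro i k
    have : ∀ j, ν j * (s * (Z i k * ν j + Z i j * ν k)) =
        s * Z i k * (ν j * ν j) + s * ν k * (Z i j * ν j) := fun j => by ring
    rw [sum_congr rfl fun j _ => this j, sum_add_distrib, ← mul_sum, ← mul_sum, hν, ha'']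
    ring
  have hW : ∀ i j l, ∑ k, s ^ 2 * (ν k * ν j) * (s * (Z k i * ν l + Z k l * ν i)) =
      s ^ 3 * ν j * (a i * ν l + a l * ν i) := by
    intro i j l
    have : ∀ k, s ^ 2 * (ν k * ν j) * (s * (Z k i * ν l + Z k l * ν i)) =
        s ^ 3 * ν j * ν l * (ν k * Z k i) + s ^ 3 * ν j * ν i * (ν k * Z k l) := fun k => by ring
    rw [sum_congr rfl fun j _ => this j, sum_add_distrib, ← mul_sum, ← mul_sum, ha', ha']
    ring
  -- first part
  have e1 : ∑ j, ∑ l, ν j * ν l * ((s * a j) * (s * a l)) = (s * ∑ j, a j * ν j) ^ 2 := by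
    rw [pow_two, mul_sum, sum_mul_sum]
    exact sum_congr rfl fun j _ => sum_congr rfl fun l _ => by ring
  have e2 : ∑ j, ∑ l, ν j * ν l * ∑ i, ∑ k, (s * (Z i k * ν j + Z i j * ν k)) *
        (s * (Z k i * ν l + Z k l * ν i)) =
      ∑ i, ∑ k, (s * (Z i k + a i * ν k)) * (s * (Z k i + a k * ν i)) := by
    have h1 : ∀ j l, ν j * ν l * ∑ i, ∑ k, (s * (Z i k * ν j + Z i j * ν k)) *
        (s * (Z k i * ν l + Z k l * ν i)) = ∑ i, ∑ k, (ν j * (s * (Z i k * ν j + Z i j * ν k))) *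
        (ν l * (s * (Z k i * ν l + Z k l * ν i))) := by
      intro j l
      rw [mul_sum]
      refine sum_congr rfl fun i _ => ?_
      rw [mul_sum]
      exact sum_congr rfl fun k _ => by ring
    rw [sum_congr rfl fun j _ => sum_congr rfl fun l _ => h1 j l, sum4]
    refine sum_congr rfl fun i _ => sum_congr rfl fun k _ => ?_
    rw [← sum_mul_sum, hX, hX]
  have e3 : ∑ i, ∑ k, (s * (Z i k + a i * ν k)) * (s * (Z k i + a k * ν i)) =
      s ^ 2 * (∑ i, ∑ k, Z i k * Z i k + 2 * ∑ i, a i * a i) + (s * ∑ j, a j * ν j) ^ 2 := by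
    have h1 : ∀ i k, (s * (Z i k + a i * ν k)) * (s * (Z k i + a k * ν i)) =
        s ^ 2 * (Z i k * Z i k) + s ^ 2 * (a k * (ν i * Z i k)) + s ^ 2 * (a i * (ν k * Z k i)) +
          (s * (a i * ν i)) * (s * (a k * ν k)) := by
      intro i k
      rw [hZ k i]; ring
    rw [sum_congr rfl fun i _ => sum_congr rfl fun k _ => h1 i k]
    simp only [sum_add_distrib, ← mul_sum]
    have h2 : ∑ i, ∑ k, a k * (ν i * Z i k) = ∑ i, a i * a i := by
      rw [sum_comm]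
      refine sum_congr rfl fun k _ => ?_
      rw [← mul_sum, ha']
    have h3 : ∑ i, a i * ∑ k, ν k * Z k i = ∑ i, a i * a i :=
      sum_congr rfl fun i _ => by rw [ha']
    rw [h2, h3, ← sum_mul, ← mul_sum]
    ring
  -- second part
  have e4 : ∀ i, ∑ j, ∑ l, ν j * ν l * (dφ i * (s ^ 2 * (ν j * ν l) / q ^ 2) +
      φ * (s * (Z i j * ν l + Z i l * ν j) / q ^ 2 -
        2 * (s ^ 2 * (ν j * ν l)) * (2 * s * a i) / q ^ 3)) =
      dφ i * (s ^ 2 / q ^ 2) + φ * (2 * s * a i / q ^ 2 - 4 * s ^ 3 * a i / q ^ 3) := by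
    intro i
    have h1 : ∀ j l, ν j * ν l * (dφ i * (s ^ 2 * (ν j * ν l) / q ^ 2) +
      φ * (s * (Z i j * ν l + Z i l * ν j) / q ^ 2 -
        2 * (s ^ 2 * (ν j * ν l)) * (2 * s * a i) / q ^ 3)) =
        (dφ i * (s ^ 2 / q ^ 2) - φ * (4 * s ^ 3 * a i / q ^ 3)) * ((ν j * ν j) * (ν l * ν l)) +
        φ * (s / q ^ 2) * ((Z i j * ν j) * (ν l * ν l)) +
        φ * (s / q ^ 2) * ((ν j * ν j) * (Z i l * ν l)) := by
      intro j l; ring
    rw [sum_congr rfl fun j _ => sum_congr rfl fun l _ => h1 j l]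
    simp only [sum_add_distrib, ← mul_sum]
    simp only [hν, ha'', mul_one, ← sum_mul, one_mul]
    ring
  unfold Phi
  simp only [hD, hT, hW]
  simp only [sum_add_distrib]
  congr 1
  · have h1 : ∀ j l, φ * (s ^ 2 * (ν j * ν l) / q ^ 2) *
        (s * a j * (s * a l) - ∑ i, ∑ k, s * (Z i k * ν j + Z i j * ν k) *
          (s * (Z k i * ν l + Z k l * ν i))) =
        φ * (s ^ 2 / q ^ 2) * (ν j * ν l * ((s * a j) * (s * a l)) -
          ν j * ν l * ∑ i, ∑ k, (s * (Z i k * ν j + Z i j * ν k)) *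
        (s * (Z k i * ν l + Z k l * ν i))) := by
      intro j l; ring
    rw [sum_congr rfl fun j _ => sum_congr rfl fun l _ => h1 j l]
    simp only [← mul_sum, sum_sub_distrib]
    rw [e1, e2, e3]
    ring
  · have h1 : ∀ j l i, (dφ i * (s ^ 2 * (ν j * ν l) / q ^ 2) +
        φ * (s * (Z i j * ν l + Z i l * ν j) / q ^ 2 -
          2 * (s ^ 2 * (ν j * ν l)) * (2 * s * a i) / q ^ 3)) *
        (s ^ 2 * (ν i * ν j) * (s * a l) - s ^ 3 * ν j * (a i * ν l + a l * ν i)) =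
        (- (s ^ 3 * a i)) * (ν j * ν l * (dφ i * (s ^ 2 * (ν j * ν l) / q ^ 2) +
      φ * (s * (Z i j * ν l + Z i l * ν j) / q ^ 2 -
        2 * (s ^ 2 * (ν j * ν l)) * (2 * s * a i) / q ^ 3))) := by
      intro j l i; ring
    rw [sum_congr rfl fun j _ => sum_congr rfl fun l _ => sum_congr rfl fun i _ => h1 j l i, sum3]
    refine sum_congr rfl fun i _ => ?_
    simp only [← mul_sum]
    rw [e4]

end

/-- The integrand in the limit. -/
theorem Phi_le {s δ φ : ℝ} (hs : 0 ≤ s) (hδ : 0 < δ) (hφ : 0 ≤ φ) (dφ : Fin n → ℝ)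
    (S : Fin n → Fin n → ℝ) (V : Fin n → Fin n → Fin n → ℝ)
    (htr : ∑ i, S i i = s) (hsym : ∀ i j, S i j = S j i)
    (hmin : ∀ i j k l, S i j * S k l = S i l * S k j)
    (hVs : ∀ k i l, V k i l = V i k l) (hVt : ∀ l, ∑ k, V k k l = 0)
    (hVS : ∀ k i l, ∑ m, V k i m * S m l = s * V k i l) :
    Phi (fun i j => s * S i j) (fun k i j => s * (V k i j + V k j i)) φ dφ (s ^ 2 + δ) ≤
      - ((s ^ 2 / (s ^ 2 + δ)) ^ 2 * (s * ∑ i, (∑ j, V i j j) * dφ i)) := by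
  rcases hs.eq_or_lt with h0 | hs
  · rw [← h0]
    simp [Phi]
  obtain ⟨m, -, hm⟩ : ∃ m ∈ (univ : Finset (Fin n)), 0 < S m m := by
    apply exists_lt_of_sum_lt
    rw [sum_const_zero, htr]
    exact hs
  set r := Real.sqrt (s * S m m) with hr
  have hr2 : r * r = s * S m m := Real.mul_self_sqrt (by positivity)
  have hrpos : 0 < r := Real.sqrt_pos.2 (by positivity)
  set ν : Fin n → ℝ := fun i => S i m / r with hν
  have hSν : ∀ i j, S i j = s * (ν i * ν j) := by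
    intro i j
    have h1 : S i m * S j m = S i j * S m m := by
      rw [hsym j m]; exact hmin i m m j
    rw [hν]
    simp only
    rw [div_mul_div_comm, hr2, h1]
    field_simp
  have hν1 : ∑ i, ν i * ν i = 1 := by
    have h1 : s * ∑ i, ν i * ν i = s := by
      rw [mul_sum, ← sum_congr rfl fun i _ => hSν i i, htr]
    have h2 : s * (∑ i, ν i * ν i - 1) = 0 := by rw [mul_sub, h1, mul_one, sub_self]
    rcases mul_eq_zero.1 h2 with h3 | h3
    · exact absurd h3 hs.ne'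
    · linarith
  set Z : Fin n → Fin n → ℝ := fun k i => ∑ m, V k i m * ν m with hZ
  have hVZ : ∀ k i l, V k i l = Z k i * ν l := by
    intro k i l
    have h1 := hVS k i l
    have h2 : ∑ m, V k i m * S m l = s * (Z k i * ν l) := by
      rw [hZ, sum_mul, mul_sum]
      exact sum_congr rfl fun m _ => by rw [hSν m l]; ring
    rw [h2] at h1
    exact (mul_left_cancel₀ hs.ne' h1).symm
  have hZs : ∀ i j, Z i j = Z j i := by
    intro i j
    rw [hZ]
    exact sum_congr rfl fun m _ => by rw [hVs]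
  have hZt : ∑ i, Z i i = 0 := by
    rw [hZ]
    simp only
    rw [sum_comm]
    apply sum_eq_zero
    intro l _
    rw [← sum_mul, hVt, zero_mul]
  have hal : ∀ i, al ν Z i = ∑ j, V i j j := by
    intro i
    unfold al
    exact sum_congr rfl fun j _ => (hVZ i j j).symm
  have hM : (fun i j => s * S i j) = fun i j => s ^ 2 * (ν i * ν j) := by
    funext i j
    rw [hSν]; ring
  have hdM : (fun k i j => s * (V k i j + V k j i)) =
      fun k i j => s * (Z k i * ν j + Z k j * ν i) := by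
    funext k i j
    rw [hVZ k i j, hVZ k j i]
  rw [hM, hdM, Phi_eval s _ φ dφ ν Z hν1 hZs hZt]
  simp only [← hal]
  set a := al ν Z with ha
  set q := s ^ 2 + δ with hq
  have hqpos : 0 < q := by positivity
  set θ := s ^ 2 / q with hθ
  have hθ0 : 0 ≤ θ := by positivity
  have hθ1 : θ ≤ 1 := by
    rw [hθ, div_le_one hqpos]; linarith
  have e1 : ∑ i, (- (s ^ 3 * a i)) * (dφ i * (s ^ 2 / q ^ 2) +
          φ * (2 * s * a i / q ^ 2 - 4 * s ^ 3 * a i / q ^ 3)) =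
      - (θ ^ 2 * (s * ∑ i, a i * dφ i)) - φ * (2 * θ ^ 2 - 4 * θ ^ 3) * ∑ i, a i * a i := by
    have h1 : ∀ i, (- (s ^ 3 * a i)) * (dφ i * (s ^ 2 / q ^ 2) +
          φ * (2 * s * a i / q ^ 2 - 4 * s ^ 3 * a i / q ^ 3)) =
          - (θ ^ 2 * s) * (a i * dφ i) - φ * (2 * θ ^ 2 - 4 * θ ^ 3) * (a i * a i) := by
      intro i
      rw [hθ]
      field_simp
      ring
    rw [sum_congr rfl fun i _ => h1 i, sum_sub_distrib, ← mul_sum, ← mul_sum]
    ring
  have e2 : φ * (s ^ 4 / q ^ 2) = φ * θ ^ 2 := by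
    rw [hθ, div_pow]
    ring
  rw [e1, e2]
  have hZ0 : 0 ≤ ∑ i, ∑ k, Z i k * Z i k :=
    sum_nonneg fun i _ => sum_nonneg fun k _ => mul_self_nonneg _
  have ha0 : 0 ≤ ∑ i, a i * a i := sum_nonneg fun i _ => mul_self_nonneg _
  have h3 : 0 ≤ φ * θ ^ 2 * ∑ i, ∑ k, Z i k * Z i k := by positivity
  have h4 : 0 ≤ φ * θ ^ 2 * (1 - θ) * ∑ i, a i * a i :=
    mul_nonneg (mul_nonneg (by positivity) (by linarith)) ha0
  nlinarith

end Pool.Agent.H20.Stab
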