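import Mathlib
import Pool.Agent.H94.Stab.Defs
import Pool.Agent.H20.Stab.Phi

/-!
# The divergence identity for smooth matrices
-/

set_option autoImplicit false

open MeasureTheory Set Filter Topology
open scoped ContDiff

namespace Pool.Agent.H20.Stab

open Pool.Agent.H94.Stab

variable {n : ℕ}

/-- The coordinate vector. -/
noncomputable abbrev ev (i : Fin n) : E n := EuclideanSpace.single i (1 : ℝ)

lemma contDiff_pd {g : E n → ℝ} (hg : ContDiff ℝ ∞ g) (i : Fin n) : ContDiff ℝ ∞ (pd i g) := by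
  have h1 : ContDiff ℝ ∞ (fderiv ℝ g) := hg.fderiv_right (m := ∞) (by norm_cast)
  exact h1.clm_apply contDiff_const

lemma hasDerivAt_line {g : E n → ℝ} {x : E n} (hg : DifferentiableAt ℝ g x) (i : Fin n) :
    HasDerivAt (fun t : ℝ => g (x + t • ev i)) (pd i g x) 0 := by
  have h1 : HasFDerivAt g (fderiv ℝ g x) x := hg.hasFDerivAt
  have h2 := h1.hasLineDerivAt (ev i)
  exact h2

lemma pd_of_line {g : E n → ℝ} {x : E n} (hg : DifferentiableAt ℝ g x) (i : Fin n) {c : ℝ}
    (h : HasDerivAt (fun t : ℝ => g (x + t • ev i)) c 0) : pd i g x = c :=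
  (hasDerivAt_line hg i).unique h

lemma pd_comm {g : E n → ℝ} (hg : ContDiff ℝ ∞ g) (i j : Fin n) (x : E n) :
    pd i (pd j g) x = pd j (pd i g) x := by
  have h1 : ContDiff ℝ ∞ (fderiv ℝ g) := hg.fderiv_right (m := ∞) (by norm_cast)
  have h2 : DifferentiableAt ℝ (fderiv ℝ g) x := (h1.differentiable (by norm_num)).differentiableAt
  have key : ∀ a b : Fin n, pd a (pd b g) x = (fderiv ℝ (fderiv ℝ g) x (ev a)) (ev b) := by
    intro a b
    have h3 : HasFDerivAt (fun y => fderiv ℝ g y (ev b))
        ((ContinuousLinearMap.apply ℝ ℝ (ev b)).comp (fderiv ℝ (fderiv ℝ g) x)) x :=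
      (ContinuousLinearMap.apply ℝ ℝ (ev b)).hasFDerivAt.comp x h2.hasFDerivAt
    change fderiv ℝ (fun y => fderiv ℝ g y (ev b)) x (ev a) = _
    rw [h3.fderiv]
    rfl
  rw [key, key]
  have h4 : IsSymmSndFDerivAt ℝ g x := by
    apply ContDiffAt.isSymmSndFDerivAt (n := ∞) hg.contDiffAt
    rw [minSmoothness_of_isRCLikeNormedField]
    exact WithTop.coe_le_coe.2 (le_top : (2 : ℕ∞) ≤ ⊤)
  exact h4 (ev i) (ev j)

lemma integrable_of_cs {g : E n → ℝ} (hg : Continuous g) (hc : HasCompactSupport g) :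
    Integrable g := hg.integrable_of_hasCompactSupport hc

lemma hasCompactSupport_pd {g : E n → ℝ} (hc : HasCompactSupport g) (i : Fin n) :
    HasCompactSupport (pd i g) := by
  have h1 := hc.fderiv (𝕜 := ℝ)
  exact h1.comp_left (g := fun L : E n →L[ℝ] ℝ => L (ev i)) rfl

lemma integral_mul_pd {f g : E n → ℝ} (hf : ContDiff ℝ ∞ f) (hg : ContDiff ℝ ∞ g)
    (hc : HasCompactSupport f) (i : Fin n) :
    ∫ x, f x * pd i g x = - ∫ x, pd i f x * g x := by
  apply integral_mul_fderiv_eq_neg_fderiv_mul_of_integrable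
  · exact integrable_of_cs ((contDiff_pd hf i).continuous.mul hg.continuous)
      ((hasCompactSupport_pd hc i).mul_right)
  · exact integrable_of_cs (hf.continuous.mul (contDiff_pd hg i).continuous) hc.mul_right
  · exact integrable_of_cs (hf.continuous.mul hg.continuous) hc.mul_right
  · exact fun x _ => (hf.differentiable (by norm_num)).differentiableAt
  · exact fun x _ => (hg.differentiable (by norm_num)).differentiableAt

section

variable {M : Fin n → Fin n → E n → ℝ} (hM : ∀ i j, ContDiff ℝ ∞ (M i j)) {δ : ℝ} (hδ : 0 < δ)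
  (hK : ∀ x, 0 ≤ ∑ i, M i i x) {φ : E n → ℝ} (hφ : ContDiff ℝ ∞ φ)

include hM hδ hK hφ

lemma contDiff_H (j l : Fin n) :
    ContDiff ℝ ∞ (fun x => φ x * (M j l x / (∑ m, M m m x + δ) ^ 2)) := by
  apply hφ.mul
  apply (hM j l).div
  · exact ((ContDiff.sum fun m _ => hM m m).add contDiff_const).pow 2
  · intro x
    have := hK x
    positivity

lemma pd_H (i j l : Fin n) (x : E n) :
    pd i (fun x => φ x * (M j l x / (∑ m, M m m x + δ) ^ 2)) x =
      pd i φ x * (M j l x / (∑ m, M m m x + δ) ^ 2) +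
        φ x * (pd i (M j l) x / (∑ m, M m m x + δ) ^ 2 -
          2 * M j l x * (∑ m, pd i (M m m) x) / (∑ m, M m m x + δ) ^ 3) := by
  have hd : DifferentiableAt ℝ (fun x => φ x * (M j l x / (∑ m, M m m x + δ) ^ 2)) x :=
    ((contDiff_H hM hδ hK hφ j l).differentiable (by norm_num)).differentiableAt
  apply pd_of_line hd
  have h1 := hasDerivAt_line ((hφ.differentiable (by norm_num)).differentiableAt (x := x)) i
  have h2 : ∀ a b, HasDerivAt (fun t : ℝ => M a b (x + t • ev i)) (pd i (M a b) x) 0 := fun a b =>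
    hasDerivAt_line (((hM a b).differentiable (by norm_num)).differentiableAt (x := x)) i
  have h3 : HasDerivAt (fun t : ℝ => ∑ m, M m m (x + t • ev i) + δ) (∑ m, pd i (M m m) x) 0 :=
    (HasDerivAt.fun_sum fun m _ => h2 m m).add_const δ
  have hq : ∑ m, M m m (x + (0 : ℝ) • ev i) + δ ≠ 0 := by
    have := hK (x + (0 : ℝ) • ev i)
    positivity
  have h4 := h1.fun_mul ((h2 j l).fun_div (h3.fun_pow 2) (pow_ne_zero 2 hq))
  refine h4.congr_deriv ?_
  simp only [zero_smul, add_zero] at hq ⊢
  field_simp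
  push_cast
  ring

/-- The integrand as a divergence. -/
theorem integral_Phi (hc : HasCompactSupport φ) :
    ∫ x, Phi (fun i j => M i j x) (fun k i j => pd k (M i j) x) (φ x) (fun i => pd i φ x)
      (∑ m, M m m x + δ) = 0 := by
  set H : Fin n → Fin n → E n → ℝ := fun j l x => φ x * (M j l x / (∑ m, M m m x + δ) ^ 2) with hH
  set Z : Fin n → Fin n → Fin n → E n → ℝ := fun i j l x =>
    M i j x * (∑ k, pd k (M k l) x) - ∑ k, M k j x * pd k (M i l) x with hZ
  have hHs : ∀ j l, ContDiff ℝ ∞ (H j l) := fun j l => contDiff_H hM hδ hK hφ j l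
  have hHc : ∀ j l, HasCompactSupport (H j l) := fun j l => hc.mul_right
  have hZs : ∀ i j l, ContDiff ℝ ∞ (Z i j l) := by
    intro i j l
    apply ContDiff.sub
    · exact (hM i j).mul (ContDiff.sum fun k _ => contDiff_pd (hM k l) k)
    · exact ContDiff.sum fun k _ => (hM k j).mul (contDiff_pd (hM i l) k)
  have hpdZ : ∀ i j l x, pd i (Z i j l) x = pd i (M i j) x * (∑ k, pd k (M k l) x) +
      M i j x * (∑ k, pd i (pd k (M k l)) x) -
      ∑ k, (pd i (M k j) x * pd k (M i l) x + M k j x * pd i (pd k (M i l)) x) := by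
    intro i j l x
    apply pd_of_line (((hZs i j l).differentiable (by norm_num)).differentiableAt)
    have h2 : ∀ {g : E n → ℝ}, ContDiff ℝ ∞ g →
        HasDerivAt (fun t : ℝ => g (x + t • ev i)) (pd i g x) 0 := fun {g} hg =>
      hasDerivAt_line ((hg.differentiable (by norm_num)).differentiableAt (x := x)) i
    have h3 : HasDerivAt (fun t : ℝ => ∑ k, pd k (M k l) (x + t • ev i))
        (∑ k, pd i (pd k (M k l)) x) 0 :=
      HasDerivAt.fun_sum fun k _ => h2 (contDiff_pd (hM k l) k)
    have h4 := (h2 (hM i j)).fun_mul h3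
    have h5 : HasDerivAt (fun t : ℝ => ∑ k, M k j (x + t • ev i) * pd k (M i l) (x + t • ev i))
        (∑ k, (pd i (M k j) x * pd k (M i l) (x + (0 : ℝ) • ev i) +
          M k j (x + (0 : ℝ) • ev i) * pd i (pd k (M i l)) x)) 0 :=
      HasDerivAt.fun_sum fun k _ => (h2 (hM k j)).fun_mul (h2 (contDiff_pd (hM i l) k))
    have h6 := h4.fun_sub h5
    simp only [zero_smul, add_zero] at h6
    exact h6
  have hsum : ∀ j l x, ∑ i, pd i (Z i j l) x =
      (∑ i, pd i (M i j) x) * (∑ k, pd k (M k l) x) -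
        ∑ i, ∑ k, pd i (M k j) x * pd k (M i l) x := by
    intro j l x
    simp only [hpdZ, Finset.sum_sub_distrib, Finset.sum_add_distrib, ← Finset.sum_mul]
    have h1 : ∑ i, M i j x * (∑ k, pd i (pd k (M k l)) x) =
        ∑ i, ∑ k, M k j x * pd i (pd k (M i l)) x := by
      rw [Finset.sum_comm]
      refine Finset.sum_congr rfl fun i _ => ?_
      rw [Finset.mul_sum]
      refine Finset.sum_congr rfl fun k _ => ?_
      rw [pd_comm (hM k l)]
    rw [h1]
    ring
  have hpt : ∀ x, Phi (fun i j => M i j x) (fun k i j => pd k (M i j) x) (φ x)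
      (fun i => pd i φ x) (∑ m, M m m x + δ) =
      ∑ j, ∑ l, ∑ i, (H j l x * pd i (Z i j l) x + pd i (H j l) x * Z i j l x) := by
    intro x
    unfold Phi
    refine Finset.sum_congr rfl fun j _ => Finset.sum_congr rfl fun l _ => ?_
    rw [Finset.sum_add_distrib, ← Finset.mul_sum, hsum]
    congr 1
    refine Finset.sum_congr rfl fun i _ => ?_
    rw [hH]
    simp only
    rw [pd_H hM hδ hK hφ i j l x]
  have hi1 : ∀ i j l, Integrable (fun x => H j l x * pd i (Z i j l) x) := fun i j l =>
    integrable_of_cs ((hHs j l).continuous.mul (contDiff_pd (hZs i j l) i).continuous)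
      (hHc j l).mul_right
  have hi2 : ∀ i j l, Integrable (fun x => pd i (H j l) x * Z i j l x) := fun i j l =>
    integrable_of_cs ((contDiff_pd (hHs j l) i).continuous.mul (hZs i j l).continuous)
      (hasCompactSupport_pd (hHc j l) i).mul_right
  simp only [hpt]
  rw [integral_finsetSum]
  · apply Finset.sum_eq_zero
    intro j _
    rw [integral_finsetSum]
    · apply Finset.sum_eq_zero
      intro l _
      rw [integral_finsetSum]
      · apply Finset.sum_eq_zero
        intro i _
        rw [integral_add (hi1 i j l) (hi2 i j l), integral_mul_pd (hHs j l) (hZs i j l) (hHc j l) i]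
        ring
      · exact fun i _ => (hi1 i j l).add (hi2 i j l)
    · exact fun l _ => integrable_finsetSum _ fun i _ => (hi1 i j l).add (hi2 i j l)
  · exact fun j _ => integrable_finsetSum _ fun l _ => integrable_finsetSum _ fun i _ =>
      (hi1 i j l).add (hi2 i j l)

end

end Pool.Agent.H20.Stab
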