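import Mathlib
import Pool.Agent.H94.Stab.Defs
import Pool.Agent.H20.Stab.Smooth

/-!
# Mollification
-/

set_option autoImplicit false

open MeasureTheory Set Filter Topology
open scoped ContDiff

namespace Pool.Agent.H20.Stab

open Pool.Agent.H94.Stab

variable {n : ℕ} (b : ContDiffBump (0 : E n))

/-- The kernel. -/
noncomputable def ker (x : E n) : ℝ := b.normed volume x

lemma ker_contDiff : ContDiff ℝ ∞ (ker b) := b.contDiff_normed

lemma ker_cs : HasCompactSupport (ker b) := b.hasCompactSupport_normed

lemma ker_nonneg (x : E n) : 0 ≤ ker b x := b.nonneg_normed x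

lemma ker_integral : ∫ x, ker b x = 1 := b.integral_normed

lemma ker_integrable : Integrable (ker b) :=
  integrable_of_cs (ker_contDiff b).continuous (ker_cs b)

lemma ker_eq_zero {x : E n} (hx : b.rOut ≤ ‖x‖) : ker b x = 0 := by
  have h1 : x ∉ Function.support (b.normed volume) := by
    rw [b.support_normed_eq, mem_ball_zero_iff]
    exact not_lt.2 hx
  exact Function.notMem_support.1 h1

/-- The mollification of `g`. -/
noncomputable def mo (g : E n → ℝ) (x : E n) : ℝ := ∫ t, g t * ker b (x - t)

lemma mo_eq_conv (g : E n → ℝ) : mo b g = convolution g (ker b) (ContinuousLinearMap.mul ℝ ℝ) volume := rfl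

variable {b}

lemma mo_contDiff {g : E n → ℝ} (hg : Integrable g) : ContDiff ℝ ∞ (mo b g) := by
  rw [mo_eq_conv]
  exact (ker_cs b).contDiff_convolution_right _ hg.locallyIntegrable (ker_contDiff b)

lemma pd_mo {g : E n → ℝ} (hg : Integrable g) (k : Fin n) (x : E n) :
    pd k (mo b g) x = ∫ t, g t * pd k (ker b) (x - t) := by
  have h1 := (ker_cs b).hasFDerivAt_convolution_right (ContinuousLinearMap.mul ℝ ℝ)
    hg.locallyIntegrable ((ker_contDiff b).of_le (by norm_cast)) x
  unfold pd
  rw [mo_eq_conv, h1.fderiv, convolution_precompR_apply _ hg.locallyIntegrable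
    ((ker_cs b).fderiv (𝕜 := ℝ)) ((ker_contDiff b).continuous_fderiv (by norm_num))]
  rfl

lemma mo_integrable {g : E n → ℝ} (hg : Integrable g) : Integrable (mo b g) := by
  rw [mo_eq_conv]
  exact hg.integrable_convolution _ (ker_integrable b)

lemma integral_mo {g : E n → ℝ} (hg : Integrable g) : ∫ x, mo b g x = ∫ x, g x := by
  rw [mo_eq_conv, integral_convolution _ hg (ker_integrable b), ker_integral]
  simp

lemma ker_bdd : ∃ c : ℝ, ∀ x : E n, ‖ker b x‖ ≤ c := by
  obtain ⟨c, hc⟩ := (ker_contDiff b).continuous.bounded_above_of_compact_support (ker_cs b)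
  exact ⟨c, hc⟩

lemma integrable_mul_ker {g : E n → ℝ} (hg : Integrable g) (x : E n) :
    Integrable (fun t => g t * ker b (x - t)) := by
  obtain ⟨c, hc⟩ := ker_bdd (b := b)
  refine hg.mul_bdd (c := c) ?_ (ae_of_all _ fun t => hc _)
  exact ((ker_contDiff b).continuous.comp (continuous_const.sub continuous_id)).aestronglyMeasurable

lemma mo_mono {g h : E n → ℝ} (hg : Integrable g) (hh : Integrable h) (hgh : g ≤ᵐ[volume] h)
    (x : E n) : mo b g x ≤ mo b h x := by
  apply integral_mono_ae (integrable_mul_ker hg x) (integrable_mul_ker hh x)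
  filter_upwards [hgh] with t ht
  exact mul_le_mul_of_nonneg_right ht (ker_nonneg b _)

lemma mo_congr {g h : E n → ℝ} (hgh : g =ᵐ[volume] h) (x : E n) : mo b g x = mo b h x := by
  apply integral_congr_ae
  filter_upwards [hgh] with t ht
  rw [ht]

lemma mo_neg (g : E n → ℝ) (x : E n) : mo b (fun t => - g t) x = - mo b g x := by
  unfold mo
  rw [← integral_neg]
  congr 1
  funext t
  ring

lemma mo_sum {ι : Type*} (s : Finset ι) {g : ι → E n → ℝ} (hg : ∀ i, Integrable (g i)) (x : E n) :
    mo b (fun t => ∑ i ∈ s, g i t) x = ∑ i ∈ s, mo b (g i) x := by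
  unfold mo
  simp only [Finset.sum_mul]
  rw [integral_finsetSum]
  exact fun i _ => integrable_mul_ker (hg i) x

lemma mo_nonneg {g : E n → ℝ} (hg : 0 ≤ᵐ[volume] g) (x : E n) : 0 ≤ mo b g x := by
  apply integral_nonneg_of_ae
  filter_upwards [hg] with t ht
  exact mul_nonneg ht (ker_nonneg b _)

lemma abs_mo_le {g h : E n → ℝ} (hg : Integrable g) (hh : Integrable h)
    (hgh : ∀ᵐ t, |g t| ≤ h t) (x : E n) : |mo b g x| ≤ mo b h x := by
  rw [abs_le]
  constructor
  · have h1 := mo_mono (b := b) hh.neg hg (by
      filter_upwards [hgh] with t ht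
      exact (abs_le.1 ht).1) x
    have h2 : mo b (-h) x = - mo b h x := mo_neg h x
    linarith
  · exact mo_mono hg hh (by
      filter_upwards [hgh] with t ht
      exact (abs_le.1 ht).2) x

/-- Cauchy–Schwarz. -/
lemma mo_cs {g h : E n → ℝ} (hg : MemLp g 2 volume) (hh : MemLp h 2 volume) (x : E n) :
    (mo b (fun t => g t * h t) x) ^ 2 ≤ mo b (fun t => g t ^ 2) x * mo b (fun t => h t ^ 2) x := by
  have hg2 : Integrable (fun t => g t ^ 2) := hg.integrable_sq
  have hh2 : Integrable (fun t => h t ^ 2) := hh.integrable_sq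
  have hgh : Integrable (fun t => g t * h t) := hg.integrable_mul hh
  set A := mo b (fun t => g t ^ 2) x with hA
  set B := mo b (fun t => h t ^ 2) x with hB
  set C := mo b (fun t => g t * h t) x with hC
  have key : ∀ y : ℝ, 0 ≤ A * (y * y) + (2 * C) * y + B := by
    intro y
    have h1 : A * (y * y) + (2 * C) * y + B = ∫ t, (g t * y + h t) ^ 2 * ker b (x - t) := by
      have e1 : ∀ t, (g t * y + h t) ^ 2 * ker b (x - t) =
          (y * y) * (g t ^ 2 * ker b (x - t)) + (2 * y) * (g t * h t * ker b (x - t)) +
            h t ^ 2 * ker b (x - t) := fun t => by ring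
      rw [integral_congr_ae (ae_of_all _ e1), integral_add, integral_add, integral_const_mul,
        integral_const_mul]
      · change _ = (y * y) * A + (2 * y) * C + B
        ring
      · exact (integrable_mul_ker hg2 x).const_mul _
      · exact (integrable_mul_ker hgh x).const_mul _
      · exact ((integrable_mul_ker hg2 x).const_mul _).add ((integrable_mul_ker hgh x).const_mul _)
      · exact integrable_mul_ker hh2 x
    rw [h1]
    exact integral_nonneg fun t => mul_nonneg (sq_nonneg _) (ker_nonneg b _)
  have h2 := discrim_le_zero key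
  unfold discrim at h2
  nlinarith

/-- Derivative of a mollification of a function whose weak derivative is known in `A`. -/
lemma pd_mo_of_weak {A : Set (E n)} {g h : E n → ℝ} (hg : Integrable g) (k : Fin n)
    (hder : ∀ φ, Test A φ → ∫ t, g t * pd k φ t = - ∫ t, h t * φ t) {x : E n}
    (hx : Metric.closedBall x b.rOut ⊆ A) : pd k (mo b g) x = mo b h x := by
  have hs : ContDiff ℝ ∞ (fun t => ker b (x - t)) :=
    (ker_contDiff b).comp (contDiff_const.sub contDiff_id)
  have hpd : ∀ t, pd k (fun t => ker b (x - t)) t = - pd k (ker b) (x - t) := by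
    intro t
    apply pd_of_line (hs.differentiable (by norm_num)).differentiableAt
    have h1 := hasDerivAt_line (((ker_contDiff b).differentiable
      (by norm_num)).differentiableAt (x := x - t)) k
    have h2 : HasDerivAt (fun s : ℝ => -s) (-1) 0 := hasDerivAt_neg 0
    have h3 : HasDerivAt (fun s : ℝ => ker b (x - t + s • ev k)) (pd k (ker b) (x - t)) (-0) := by
      rw [neg_zero]; exact h1
    have h4 := h3.comp (0 : ℝ) h2
    have h5 : ((fun s : ℝ => ker b (x - t + s • ev k)) ∘ fun s : ℝ => -s) =
        fun s : ℝ => ker b (x - (t + s • ev k)) := by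
      funext s
      simp only [Function.comp_apply, neg_smul]
      congr 1
      abel
    rw [h5] at h4
    refine h4.congr_deriv ?_
    ring
  have hsupp : Function.support (fun t => ker b (x - t)) ⊆ Metric.closedBall x b.rOut := by
    intro t ht
    rw [Function.mem_support] at ht
    by_contra hcon
    apply ht
    apply ker_eq_zero
    rw [Metric.mem_closedBall, dist_eq_norm, norm_sub_rev] at hcon
    exact (not_le.1 hcon).le
  have hts : tsupport (fun t => ker b (x - t)) ⊆ Metric.closedBall x b.rOut :=
    closure_minimal hsupp Metric.isClosed_closedBall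
  have hT : Test A (fun t => ker b (x - t)) :=
    { smooth := hs
      compact := HasCompactSupport.intro (isCompact_closedBall x b.rOut) (by
        intro t ht
        by_contra hcon
        exact ht (hsupp hcon))
      sub := hts.trans hx }
  have h1 := hder _ hT
  simp only [hpd, mul_neg, integral_neg] at h1
  rw [pd_mo hg]
  exact neg_injective h1

/-- The sequence of kernels. -/
noncomputable def bs (m : ℕ) : ContDiffBump (0 : E n) :=
  ⟨1 / (2 * ((m : ℝ) + 1)), 1 / ((m : ℝ) + 1), by positivity, by
    apply one_div_lt_one_div_of_lt <;> [positivity; (have : (0 : ℝ) ≤ m := Nat.cast_nonneg m; linarith)]⟩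

lemma bs_rOut (m : ℕ) : (bs m : ContDiffBump (0 : E n)).rOut = 1 / ((m : ℝ) + 1) := rfl

lemma bs_tendsto : Tendsto (fun m => (bs m : ContDiffBump (0 : E n)).rOut) atTop (𝓝 0) :=
  tendsto_one_div_add_atTop_nhds_zero_nat

lemma mo_tendsto {g : E n → ℝ} (hg : Integrable g) :
    ∀ᵐ x, Tendsto (fun m => mo (bs m) g x) atTop (𝓝 (g x)) := by
  have h1 := ContDiffBump.ae_convolution_tendsto_right_of_locallyIntegrable
    (φ := fun m => (bs m : ContDiffBump (0 : E n))) (l := atTop) (K := 2) (g := g) (μ := volume)
    bs_tendsto (by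
      filter_upwards with m
      change 1 / ((m : ℝ) + 1) ≤ 2 * (1 / (2 * ((m : ℝ) + 1)))
      apply le_of_eq
      field_simp) hg.locallyIntegrable
  filter_upwards [h1] with x hx
  refine hx.congr ?_
  intro m
  unfold convolution mo
  rw [← integral_sub_left_eq_self _ volume x]
  congr 1
  funext t
  simp only [ContinuousLinearMap.lsmul_apply, smul_eq_mul, sub_sub_cancel]
  rw [mul_comm]
  rfl

end Pool.Agent.H20.Stab
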