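import Mathlib

/-!
# Generalised dominated convergence (Pratt's lemma)
-/

set_option autoImplicit false

open MeasureTheory Filter Topology

namespace Pool.Agent.H20.Stab

theorem pratt {X : Type*} [MeasurableSpace X] {μ : Measure X} {f : ℕ → X → ℝ} {f0 : X → ℝ}
    {g : ℕ → X → ℝ} {g0 : X → ℝ} (hf : ∀ m, AEStronglyMeasurable (f m) μ)
    (hg : ∀ m, Integrable (g m) μ) (hg0 : Integrable g0 μ)
    (hfg : ∀ m, ∀ᵐ x ∂μ, |f m x| ≤ g m x)
    (hflim : ∀ᵐ x ∂μ, Tendsto (fun m => f m x) atTop (𝓝 (f0 x)))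
    (hglim : ∀ᵐ x ∂μ, Tendsto (fun m => g m x) atTop (𝓝 (g0 x)))
    (hint : Tendsto (fun m => ∫ x, g m x ∂μ) atTop (𝓝 (∫ x, g0 x ∂μ))) :
    Integrable f0 μ ∧ Tendsto (fun m => ∫ x, f m x ∂μ) atTop (𝓝 (∫ x, f0 x ∂μ)) := by
  have hf0m : AEStronglyMeasurable f0 μ := aestronglyMeasurable_of_tendsto_ae atTop hf hflim
  have hfm : ∀ m, Integrable (f m) μ := fun m =>
    (hg m).mono' (hf m) (by filter_upwards [hfg m] with x hx; exact hx)
  have hf0g : ∀ᵐ x ∂μ, |f0 x| ≤ g0 x := by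
    filter_upwards [hflim, hglim, ae_all_iff.2 hfg] with x h1 h2 h3
    exact le_of_tendsto_of_tendsto' h1.abs h2 h3
  have hf0 : Integrable f0 μ := hg0.mono' hf0m (by filter_upwards [hf0g] with x hx; exact hx)
  -- the error
  set e : ℕ → ℝ := fun m => ∫ x, |f m x - f0 x| ∂μ with he
  have hei : ∀ m, Integrable (fun x => |f m x - f0 x|) μ := fun m => ((hfm m).sub hf0).abs
  set h : ℕ → X → ℝ := fun m x => g m x + g0 x - |f m x - f0 x| with hh
  have hhi : ∀ m, Integrable (h m) μ := fun m => ((hg m).add hg0).sub (hei m)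
  have hh0 : ∀ m, 0 ≤ᵐ[μ] h m := by
    intro m
    filter_upwards [hfg m, hf0g] with x h1 h2
    have h3 : |f m x - f0 x| ≤ |f m x| + |f0 x| := abs_sub _ _
    simp only [Pi.zero_apply, hh]
    linarith
  have hhlim : ∀ᵐ x ∂μ, Tendsto (fun m => h m x) atTop (𝓝 (2 * g0 x)) := by
    filter_upwards [hflim, hglim] with x h1 h2
    have h3 : Tendsto (fun m => |f m x - f0 x|) atTop (𝓝 0) := by
      have := (h1.sub_const (f0 x)).abs
      simpa using this
    have h4 := (h2.add_const (g0 x)).sub h3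
    have h5 : g0 x + g0 x - 0 = 2 * g0 x := by ring
    rw [h5] at h4
    exact h4
  have hFatou : ENNReal.ofReal (2 * ∫ x, g0 x ∂μ) ≤
      liminf (fun m => ENNReal.ofReal (∫ x, h m x ∂μ)) atTop := by
    have h1 : ∀ m, ENNReal.ofReal (∫ x, h m x ∂μ) = ∫⁻ x, ENNReal.ofReal (h m x) ∂μ := fun m =>
      ofReal_integral_eq_lintegral_ofReal (hhi m) (hh0 m)
    have hg0nn : 0 ≤ᵐ[μ] fun x => 2 * g0 x := by
      filter_upwards [hf0g] with x h2
      have := abs_nonneg (f0 x)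
      simp only [Pi.zero_apply]
      linarith
    have h2 : ENNReal.ofReal (2 * ∫ x, g0 x ∂μ) = ∫⁻ x, ENNReal.ofReal (2 * g0 x) ∂μ := by
      rw [← integral_const_mul]
      exact ofReal_integral_eq_lintegral_ofReal (hg0.const_mul 2) hg0nn
    rw [h2]
    simp only [h1]
    calc ∫⁻ x, ENNReal.ofReal (2 * g0 x) ∂μ
        = ∫⁻ x, liminf (fun m => ENNReal.ofReal (h m x)) atTop ∂μ := by
          apply lintegral_congr_ae
          filter_upwards [hhlim] with x hx
          exact ((ENNReal.continuous_ofReal.tendsto _).comp hx).liminf_eq.symm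
      _ ≤ liminf (fun m => ∫⁻ x, ENNReal.ofReal (h m x) ∂μ) atTop :=
          lintegral_liminf_le' fun m => (hhi m).aestronglyMeasurable.aemeasurable.ennreal_ofReal
  have hhint : ∀ m, ∫ x, h m x ∂μ = (∫ x, g m x ∂μ) + (∫ x, g0 x ∂μ) - e m := by
    intro m
    have h1 : ∫ x, h m x ∂μ = (∫ x, (g m x + g0 x) ∂μ) - ∫ x, |f m x - f0 x| ∂μ :=
      integral_sub ((hg m).add hg0) (hei m)
    rw [h1, integral_add (hg m) hg0]
  have he0 : ∀ m, 0 ≤ e m := fun m => integral_nonneg fun x => abs_nonneg _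
  have hetend : Tendsto e atTop (𝓝 0) := by
    rw [Metric.tendsto_atTop']
    intro ε hε
    have h1 : ∀ᶠ m in atTop, 2 * (∫ x, g0 x ∂μ) - ε / 2 < ∫ x, h m x ∂μ := by
      by_cases hc : 0 < 2 * (∫ x, g0 x ∂μ)
      · have h2 : ENNReal.ofReal (2 * (∫ x, g0 x ∂μ) - ε / 2) <
            liminf (fun m => ENNReal.ofReal (∫ x, h m x ∂μ)) atTop := by
          refine lt_of_lt_of_le ?_ hFatou
          rw [ENNReal.ofReal_lt_ofReal_iff hc]
          linarith
        filter_upwards [eventually_lt_of_lt_liminf h2] with m hm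
        by_contra hcon
        push Not at hcon
        exact absurd (ENNReal.ofReal_le_ofReal hcon) (not_le.2 hm)
      · filter_upwards with m
        have h3 : 0 ≤ ∫ x, h m x ∂μ := integral_nonneg_of_ae (hh0 m)
        linarith [not_lt.1 hc]
    have h2 : ∀ᶠ m in atTop, (∫ x, g m x ∂μ) < (∫ x, g0 x ∂μ) + ε / 2 :=
      hint.eventually_lt_const (by linarith)
    obtain ⟨N, hN⟩ := eventually_atTop.1 (h1.and h2)
    refine ⟨N, fun m hm => ?_⟩
    obtain ⟨h3, h4⟩ := hN m (le_of_lt hm)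
    rw [hhint m] at h3
    rw [Real.dist_eq, sub_zero, abs_of_nonneg (he0 m)]
    linarith
  refine ⟨hf0, ?_⟩
  rw [tendsto_iff_norm_sub_tendsto_zero]
  refine squeeze_zero (fun _ => norm_nonneg _) (fun m => ?_) hetend
  rw [← integral_sub (hfm m) hf0, Real.norm_eq_abs]
  exact abs_integral_le_integral_abs

end Pool.Agent.H20.Stab
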