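import Mathlib
import Pool.Agent.H94.Stab.Defs
import Pool.Agent.H20.Stab.Pratt
import Pool.Agent.H20.Stab.Eval
import Pool.Agent.H20.Stab.Smooth
import Pool.Agent.H20.Stab.Moll

/-!
# M7: the Bochner inequality for the limit
-/

set_option autoImplicit false

open MeasureTheory Set Filter Topology
open scoped ContDiff

namespace Pool.Agent.H20.Stab

open Pool.Agent.H94.Stab

variable {n : ℕ}

lemma pd_eq_zero {φ : E n → ℝ} {x : E n} (hx : x ∉ tsupport φ) (i : Fin n) : pd i φ x = 0 := by
  have h1 : φ =ᶠ[𝓝 x] fun _ => (0 : ℝ) := notMem_tsupport_iff_eventuallyEq.1 hx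
  unfold pd
  rw [h1.fderiv_eq]
  simp

lemma tsupport_pd (φ : E n → ℝ) (i : Fin n) : tsupport (pd i φ) ⊆ tsupport φ := by
  apply closure_minimal _ (isClosed_tsupport φ)
  intro x hx
  by_contra hcon
  exact hx (pd_eq_zero hcon i)

lemma test_pd {A : Set (E n)} {φ : E n → ℝ} (h : Test A φ) (i : Fin n) : Test A (pd i φ) where
  smooth := contDiff_pd h.smooth i
  compact := hasCompactSupport_pd h.compact i
  sub := (tsupport_pd φ i).trans h.sub

lemma test_bdd {g : E n → ℝ} (hg : Continuous g) (hc : HasCompactSupport g) :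
    ∃ c : ℝ, ∀ x, |g x| ≤ c := by
  obtain ⟨c, hc⟩ := hg.bounded_above_of_compact_support hc
  exact ⟨c, hc⟩

lemma Phi_zero (M : Fin n → Fin n → ℝ) (dM : Fin n → Fin n → Fin n → ℝ) (q : ℝ) :
    Phi M dM 0 (fun _ => 0) q = 0 := by
  simp [Phi]

lemma abs_S_le {s : ℝ} (hs : 0 ≤ s) (S : Fin n → Fin n → ℝ)
    (htr : ∑ i, S i i = s) (hsym : ∀ i j, S i j = S j i)
    (hmin : ∀ i j k l, S i j * S k l = S i l * S k j) (i j : Fin n) : |S i j| ≤ s := by
  have h1 : ∑ i, ∑ k, S i k * S i k = s * s := by
    rw [← htr, Finset.sum_mul_sum]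
    refine Finset.sum_congr rfl fun i _ => Finset.sum_congr rfl fun k _ => ?_
    rw [hmin i i k k, hsym k i]
  have h2 : S i j * S i j ≤ s * s := by
    rw [← h1]
    calc S i j * S i j ≤ ∑ k, S i k * S i k :=
          Finset.single_le_sum (f := fun k => S i k * S i k) (fun k _ => mul_self_nonneg _)
            (Finset.mem_univ j)
      _ ≤ ∑ i, ∑ k, S i k * S i k :=
          Finset.single_le_sum (f := fun i => ∑ k, S i k * S i k)
            (fun i _ => Finset.sum_nonneg fun k _ => mul_self_nonneg _) (Finset.mem_univ i)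
  exact abs_le_of_sq_le_sq (by nlinarith : (S i j) ^ 2 ≤ s ^ 2) hs

section Core

variable {A : Set (E n)} (hA : IsOpen A) (s : E n → ℝ) (S : Fin n → Fin n → E n → ℝ)
    (V : Fin n → Fin n → Fin n → E n → ℝ)
    (hs2 : MemLp s 2 volume) (hS2 : ∀ i j, MemLp (S i j) 2 volume)
    (hV2 : ∀ k i l, MemLp (V k i l) 2 volume)
    (hs0 : ∀ᵐ x, 0 ≤ s x)
    (hsym : ∀ᵐ x, ∀ i j, S i j x = S j i x)
    (htr : ∀ᵐ x, ∑ i, S i i x = s x)
    (hmin : ∀ᵐ x, ∀ i j k l, S i j x * S k l x = S i l x * S k j x)
    (hVs : ∀ᵐ x, ∀ k i l, V k i l x = V i k l x)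
    (hVt : ∀ᵐ x, ∀ l, ∑ k, V k k l x = 0)
    (hVS : ∀ᵐ x, ∀ k i l, ∑ m, V k i m x * S m l x = s x * V k i l x)
    (hder : ∀ φ, Test A φ → ∀ i j k, ∫ x, s x * S i j x * pd k φ x =
      - ∫ x, s x * (V k i j x + V k j i x) * φ x)

include hA hs2 hS2 hV2 hs0 hsym htr hmin hVs hVt hVS hder

/-- The inequality for a fixed `δ`. -/
theorem core_delta {φ : E n → ℝ} (hφ : Test A φ) (hφ0 : ∀ x, 0 ≤ φ x) {δ : ℝ} (hδ : 0 < δ) :
    0 ≤ - ∫ x, (s x ^ 2 / (s x ^ 2 + δ)) ^ 2 * (s x * ∑ i, (∑ j, V i j j x) * pd i φ x) := by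
  -- the products
  have hM1 : ∀ i j, Integrable (fun x => s x * S i j x) := fun i j => hs2.integrable_mul (hS2 i j)
  have hVV : ∀ k i j, MemLp (fun x => V k i j x + V k j i x) 2 volume := fun k i j =>
    (hV2 k i j).add (hV2 k j i)
  have hD1 : ∀ k i j, Integrable (fun x => s x * (V k i j x + V k j i x)) := fun k i j =>
    hs2.integrable_mul (hVV k i j)
  have hK1 : Integrable (fun x => s x ^ 2) := hs2.integrable_sq
  set G : E n → ℝ := fun x => ∑ k, ∑ i, ∑ j, (V k i j x + V k j i x) ^ 2 with hG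
  have hG1 : Integrable G := integrable_finsetSum _ fun k _ => integrable_finsetSum _ fun i _ =>
    integrable_finsetSum _ fun j _ => (hVV k i j).integrable_sq
  have hG0 : ∀ x, 0 ≤ G x := fun x => Finset.sum_nonneg fun k _ => Finset.sum_nonneg fun i _ =>
    Finset.sum_nonneg fun j _ => sq_nonneg _
  have hGle : ∀ k i j x, (V k i j x + V k j i x) ^ 2 ≤ G x := by
    intro k i j x
    calc (V k i j x + V k j i x) ^ 2 ≤ ∑ j, (V k i j x + V k j i x) ^ 2 :=
          Finset.single_le_sum (f := fun j => (V k i j x + V k j i x) ^ 2)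
            (fun j _ => sq_nonneg _) (Finset.mem_univ j)
      _ ≤ ∑ i, ∑ j, (V k i j x + V k j i x) ^ 2 :=
          Finset.single_le_sum (f := fun i => ∑ j, (V k i j x + V k j i x) ^ 2)
            (fun i _ => Finset.sum_nonneg fun j _ => sq_nonneg _) (Finset.mem_univ i)
      _ ≤ G x :=
          Finset.single_le_sum (f := fun k => ∑ i, ∑ j, (V k i j x + V k j i x) ^ 2)
            (fun k _ => Finset.sum_nonneg fun i _ => Finset.sum_nonneg fun j _ => sq_nonneg _)
            (Finset.mem_univ k)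
  -- the radius
  obtain ⟨ε, hε, hεA⟩ : ∃ ε > 0, ∀ x ∈ tsupport φ, Metric.closedBall x ε ⊆ A := by
    obtain ⟨ε, hε, h1⟩ := hφ.compact.isCompact.exists_cthickening_subset_open hA hφ.sub
    refine ⟨ε, hε, fun x hx => (Metric.closedBall_subset_cthickening hx ε).trans h1⟩
  obtain ⟨m0, hm0⟩ : ∃ m0 : ℕ, 1 / ((m0 : ℝ) + 1) < ε := exists_nat_one_div_lt hε
  have hmε : ∀ m, m0 ≤ m → (bs m : ContDiffBump (0 : E n)).rOut ≤ ε := by
    intro m hm
    rw [bs_rOut]
    refine le_trans (one_div_le_one_div_of_le (by positivity) ?_) hm0.le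
    have : (m0 : ℝ) ≤ m := by exact_mod_cast hm
    linarith
  -- bounds of the test function
  obtain ⟨c, hc0, hc1⟩ : ∃ c : ℝ, (∀ x, |φ x| ≤ c) ∧ ∀ i x, |pd i φ x| ≤ c := by
    obtain ⟨c0, h0⟩ := test_bdd hφ.smooth.continuous hφ.compact
    choose c1 h1 using fun i => test_bdd (test_pd hφ i).smooth.continuous (test_pd hφ i).compact
    have hc1nn : ∀ i, 0 ≤ c1 i := fun i => (abs_nonneg _).trans (h1 i 0)
    have hc0nn : 0 ≤ c0 := (abs_nonneg _).trans (h0 0)
    refine ⟨c0 + ∑ i, c1 i, fun x => ?_, fun i x => ?_⟩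
    · have := Finset.sum_nonneg (s := Finset.univ) fun i _ => hc1nn i
      linarith [h0 x]
    · have := Finset.single_le_sum (f := c1) (fun i _ => hc1nn i) (Finset.mem_univ i)
      linarith [h1 i x]
  have hcnn : 0 ≤ c := (abs_nonneg _).trans (hc0 0)
  -- the mollified trace
  have hKm : ∀ (m : ℕ) x, ∑ i, mo (bs m) (fun t => s t * S i i t) x =
      mo (bs m) (fun t => s t ^ 2) x := by
    intro m x
    rw [← mo_sum Finset.univ (fun i => hM1 i i)]
    apply mo_congr
    filter_upwards [htr] with t ht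
    rw [← Finset.mul_sum, ht, pow_two]
  have hKnn : ∀ (m : ℕ) x, 0 ≤ mo (bs m) (fun t => s t ^ 2) (x : E n) := fun m x =>
    mo_nonneg (ae_of_all _ fun t => sq_nonneg _) x
  -- the sequence
  set f : ℕ → E n → ℝ := fun m x => Phi (fun i j => mo (bs m) (fun t => s t * S i j t) x)
    (fun k i j => pd k (mo (bs m) (fun t => s t * S i j t)) x) (φ x) (fun i => pd i φ x)
    (∑ i, mo (bs m) (fun t => s t * S i i t) x + δ) with hf
  set f0 : E n → ℝ := fun x => Phi (fun i j => s x * S i j x)
    (fun k i j => s x * (V k i j x + V k j i x)) (φ x) (fun i => pd i φ x) (s x ^ 2 + δ) with hf0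
  have hcont : ∀ m, Continuous (f m) := by
    intro m
    have h1 : ∀ i j, Continuous (mo (bs m) (fun t => s t * S i j t)) := fun i j =>
      (mo_contDiff (hM1 i j)).continuous
    have h2 : ∀ k i j, Continuous (pd k (mo (bs m) (fun t => s t * S i j t))) := fun k i j =>
      (contDiff_pd (mo_contDiff (hM1 i j)) k).continuous
    have h3 : Continuous φ := hφ.smooth.continuous
    have h4 : ∀ i, Continuous (pd i φ) := fun i => (contDiff_pd hφ.smooth i).continuous
    have h5 : Continuous (fun x => ∑ i, mo (bs m) (fun t => s t * S i i t) x + δ) :=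
      (continuous_finsetSum _ fun i _ => h1 i i).add continuous_const
    have h6 : ∀ x, ∑ i, mo (bs m) (fun t => s t * S i i t) x + δ ≠ 0 := by
      intro x
      rw [hKm]
      have := hKnn m x
      positivity
    rw [hf]
    unfold Phi
    have h7 : ∀ l, Continuous fun x => ∑ k, pd k (mo (bs m) (fun t => s t * S k l t)) x :=
      fun l => continuous_finsetSum _ fun k _ => h2 k k l
    have h8 : ∀ i, Continuous fun x => ∑ k, pd i (mo (bs m) (fun t => s t * S k k t)) x :=
      fun l => continuous_finsetSum _ fun k _ => h2 l k k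
    refine continuous_finsetSum _ fun j _ => continuous_finsetSum _ fun l _ => ?_
    refine Continuous.add ?_ (continuous_finsetSum _ fun i _ => ?_)
    · refine Continuous.mul (h3.mul ((h1 j l).div (h5.pow 2) fun x => pow_ne_zero 2 (h6 x))) ?_
      refine Continuous.sub ((h7 j).mul (h7 l)) ?_
      exact continuous_finsetSum _ fun i _ => continuous_finsetSum _ fun k _ =>
        (h2 i k j).mul (h2 k i l)
    · refine Continuous.mul (Continuous.add ((h4 i).mul ((h1 j l).div (h5.pow 2)
        fun x => pow_ne_zero 2 (h6 x))) (h3.mul (Continuous.sub ((h2 i j l).div (h5.pow 2)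
        fun x => pow_ne_zero 2 (h6 x)) ?_))) ?_
      · exact ((continuous_const.mul (h1 j l)).mul (h8 i)).div (h5.pow 3)
          fun x => pow_ne_zero 3 (h6 x)
      · exact Continuous.sub ((h1 i j).mul (h7 l)) (continuous_finsetSum _ fun k _ =>
          (h1 k j).mul (h2 k i l))
  -- the weak derivatives
  have hpd : ∀ m k i j x, Metric.closedBall x (bs m : ContDiffBump (0 : E n)).rOut ⊆ A →
      pd k (mo (bs m) (fun t => s t * S i j t)) x =
        mo (bs m) (fun t => s t * (V k i j t + V k j i t)) x := by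
    intro m k i j x hx
    exact pd_mo_of_weak (hM1 i j) k (fun ψ hψ => hder ψ hψ i j k) hx
  have hzero : ∀ m x, x ∉ tsupport φ → f m x = 0 := by
    intro m x hx
    rw [hf]
    simp only
    rw [image_eq_zero_of_notMem_tsupport hx]
    simp only [pd_eq_zero hx]
    exact Phi_zero _ _ _
  have hzero0 : ∀ x, x ∉ tsupport φ → f0 x = 0 := by
    intro x hx
    rw [hf0]
    simp only
    rw [image_eq_zero_of_notMem_tsupport hx]
    simp only [pd_eq_zero hx]
    exact Phi_zero _ _ _
  have hSs : ∀ i j, ∀ᵐ t, |s t * S i j t| ≤ s t ^ 2 := by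
    intro i j
    filter_upwards [hs0, hsym, htr, hmin] with t h1 h2 h3 h4
    have h5 := abs_S_le h1 (fun i j => S i j t) h3 h2 h4 i j
    rw [abs_mul, abs_of_nonneg h1, pow_two]
    exact mul_le_mul_of_nonneg_left h5 h1
  set P : ℝ := 20 * ((n : ℝ) + 1) ^ 6 with hP
  have hPnn : 0 ≤ P := by positivity
  have hbound : ∀ m, m0 ≤ m → ∀ x, |f m x| ≤
      P * c * (mo (bs m) (fun t => s t ^ 2) x + mo (bs m) G x) := by
    intro m hm x
    have hGm : 0 ≤ mo (bs m) G x := mo_nonneg (ae_of_all _ hG0) x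
    by_cases hx : x ∈ tsupport φ
    · rw [hf]
      simp only
      rw [hKm]
      apply Phi_bound (hKnn m x) hGm hδ
      · intro i j
        exact abs_mo_le (hM1 i j) hK1 (hSs i j) x
      · intro k i j
        rw [hpd m k i j x ((Metric.closedBall_subset_closedBall (hmε m hm)).trans (hεA x hx))]
        refine (mo_cs hs2 (hVV k i j) x).trans ?_
        apply mul_le_mul_of_nonneg_left _ (hKnn m x)
        exact mo_mono (hVV k i j).integrable_sq hG1 (ae_of_all _ (hGle k i j)) x
      · exact hc0 x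
      · exact fun i => hc1 i x
    · rw [hzero m x hx, abs_zero]
      have := hKnn m x
      positivity
  have hlim : ∀ᵐ x, Tendsto (fun m => f (m + m0) x) atTop (𝓝 (f0 x)) := by
    have a1 : ∀ᵐ x, ∀ i j, Tendsto (fun m => mo (bs m) (fun t => s t * S i j t) x) atTop
        (𝓝 (s x * S i j x)) := by
      rw [ae_all_iff]; intro i; rw [ae_all_iff]; intro j
      exact mo_tendsto (hM1 i j)
    have a2 : ∀ᵐ x, ∀ k i j, Tendsto (fun m => mo (bs m) (fun t => s t * (V k i j t + V k j i t)) x)
        atTop (𝓝 (s x * (V k i j x + V k j i x))) := by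
      rw [ae_all_iff]; intro k; rw [ae_all_iff]; intro i; rw [ae_all_iff]; intro j
      exact mo_tendsto (hD1 k i j)
    have a3 : ∀ᵐ x, Tendsto (fun m => mo (bs m) (fun t => s t ^ 2) x) atTop (𝓝 (s x ^ 2)) :=
      mo_tendsto hK1
    filter_upwards [a1, a2, a3] with x h1 h2 h3
    by_cases hx : x ∈ tsupport φ
    · have h4 : Tendsto (fun m : ℕ => m + m0) atTop atTop := tendsto_add_atTop_nat m0
      rw [hf, hf0]
      simp only
      apply Phi_tendsto
      · intro i j
        exact (h1 i j).comp h4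
      · intro k i j
        refine ((h2 k i j).comp h4).congr ?_
        intro m
        rw [Function.comp_apply, hpd (m + m0) k i j x
          ((Metric.closedBall_subset_closedBall (hmε _ (Nat.le_add_left _ _))).trans (hεA x hx))]
      · simp only [hKm]
        exact (h3.comp h4).add_const δ
      · positivity
    · rw [hzero0 x hx]
      refine tendsto_const_nhds.congr ?_
      intro m
      rw [hzero _ x hx]
  have hint : ∀ m, ∫ x, f m x = 0 := by
    intro m
    exact integral_Phi (M := fun i j => mo (bs m) (fun t => s t * S i j t))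
      (fun i j => mo_contDiff (hM1 i j)) hδ (fun x => by rw [hKm]; exact hKnn m x) hφ.smooth
      hφ.compact
  obtain ⟨hf0i, hlimi⟩ := pratt (μ := volume) (f := fun m => f (m + m0)) (f0 := f0)
    (g := fun m x => P * c * (mo (bs (m + m0)) (fun t => s t ^ 2) x + mo (bs (m + m0)) G x))
    (g0 := fun x => P * c * (s x ^ 2 + G x))
    (fun m => (hcont _).aestronglyMeasurable)
    (fun m => ((mo_integrable hK1).add (mo_integrable hG1)).const_mul _)
    ((hK1.add hG1).const_mul _)
    (fun m => ae_of_all _ (hbound (m + m0) (Nat.le_add_left _ _)))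
    hlim (by
      have h4 : Tendsto (fun m : ℕ => m + m0) atTop atTop := tendsto_add_atTop_nat m0
      filter_upwards [mo_tendsto hK1, mo_tendsto hG1] with x h1 h2
      exact ((h1.comp h4).add (h2.comp h4)).const_mul _)
    (by
      refine tendsto_const_nhds.congr ?_
      intro m
      rw [integral_const_mul, integral_const_mul, integral_add hK1 hG1,
        integral_add (mo_integrable hK1) (mo_integrable hG1), integral_mo hK1, integral_mo hG1])
  have hf0z : ∫ x, f0 x = 0 := by
    have h1 : Tendsto (fun m => ∫ x, f (m + m0) x) atTop (𝓝 0) := by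
      simp only [hint]
      exact tendsto_const_nhds
    exact tendsto_nhds_unique hlimi h1
  -- conclusion
  have hRi : Integrable (fun x => (s x ^ 2 / (s x ^ 2 + δ)) ^ 2 *
      (s x * ∑ i, (∑ j, V i j j x) * pd i φ x)) := by
    have h1' : MemLp (fun x => ∑ i, (∑ j, V i j j x) * pd i φ x) 2 volume := by
      apply memLp_finsetSum
      intro i _
      have h2 : MemLp (fun x => ∑ j, V i j j x) 2 volume := memLp_finsetSum _ fun j _ => hV2 i j j
      have h3 : MemLp (pd i φ) ⊤ volume :=
        memLp_top_of_bound (contDiff_pd hφ.smooth i).continuous.aestronglyMeasurable c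
          (ae_of_all _ fun x => hc1 i x)
      exact h3.mul h2
    have h1 : Integrable (fun x => s x * ∑ i, (∑ j, V i j j x) * pd i φ x) :=
      hs2.integrable_mul h1'
    refine h1.bdd_mul (c := 1) ?_ (ae_of_all _ fun x => ?_)
    · have hsm := hs2.aestronglyMeasurable
      have h2 : AEMeasurable s := hsm.aemeasurable
      exact (((h2.pow_const 2).div ((h2.pow_const 2).add_const δ)).pow_const 2).aestronglyMeasurable
    · have h2 : 0 ≤ s x ^ 2 := sq_nonneg _
      have h3 : 0 ≤ s x ^ 2 / (s x ^ 2 + δ) := by positivity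
      have h4 : s x ^ 2 / (s x ^ 2 + δ) ≤ 1 := by
        rw [div_le_one (by positivity)]; linarith
      rw [Real.norm_eq_abs, abs_of_nonneg (by positivity)]
      exact pow_le_one₀ h3 h4
  rw [← integral_neg, ← hf0z]
  apply integral_mono_ae hf0i hRi.neg
  filter_upwards [hs0, hsym, htr, hmin, hVs, hVt, hVS] with x h1 h2 h3 h4 h5 h6 h7
  exact Phi_le h1 hδ (hφ0 x) (fun i => pd i φ x) (fun i j => S i j x) (fun k i j => V k i j x)
    h3 h2 h4 h5 h6 h7

/-- The limit `δ → 0`. -/
theorem core_zero {φ : E n → ℝ} (hφ : Test A φ) (hφ0 : ∀ x, 0 ≤ φ x) :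
    0 ≤ - ∫ x, s x * ∑ i, (∑ j, V i j j x) * pd i φ x := by
  set R : E n → ℝ := fun x => s x * ∑ i, (∑ j, V i j j x) * pd i φ x with hR
  have hRi : Integrable R := by
    have h1' : MemLp (fun x => ∑ i, (∑ j, V i j j x) * pd i φ x) 2 volume := by
      apply memLp_finsetSum
      intro i _
      have h2 : MemLp (fun x => ∑ j, V i j j x) 2 volume := memLp_finsetSum _ fun j _ => hV2 i j j
      obtain ⟨c, hc⟩ := test_bdd (test_pd hφ i).smooth.continuous (test_pd hφ i).compact
      have h3 : MemLp (pd i φ) ⊤ volume :=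
        memLp_top_of_bound (contDiff_pd hφ.smooth i).continuous.aestronglyMeasurable c
          (ae_of_all _ fun x => hc x)
      exact h3.mul h2
    exact hs2.integrable_mul h1'
  have hsm : AEMeasurable s := hs2.aestronglyMeasurable.aemeasurable
  have hlim : Tendsto (fun m : ℕ => ∫ x, (s x ^ 2 / (s x ^ 2 + 1 / ((m : ℝ) + 1))) ^ 2 * R x)
      atTop (𝓝 (∫ x, R x)) := by
    apply tendsto_integral_of_dominated_convergence (fun x => |R x|)
    · intro m
      exact ((((hsm.pow_const 2).div ((hsm.pow_const 2).add_const _)).pow_const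
        2).aestronglyMeasurable).mul hRi.aestronglyMeasurable
    · exact hRi.abs
    · intro m
      refine ae_of_all _ fun x => ?_
      have h2 : 0 ≤ s x ^ 2 := sq_nonneg _
      have h5 : (0 : ℝ) < 1 / ((m : ℝ) + 1) := by positivity
      have h3 : 0 ≤ s x ^ 2 / (s x ^ 2 + 1 / ((m : ℝ) + 1)) := by positivity
      have h4 : s x ^ 2 / (s x ^ 2 + 1 / ((m : ℝ) + 1)) ≤ 1 := by
        rw [div_le_one (by positivity)]; linarith
      rw [Real.norm_eq_abs, abs_mul, abs_of_nonneg (pow_nonneg h3 2)]
      exact mul_le_of_le_one_left (abs_nonneg _) (pow_le_one₀ h3 h4)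
    · refine ae_of_all _ fun x => ?_
      by_cases hx : s x = 0
      · have h1 : R x = 0 := by rw [hR]; simp only; rw [hx, zero_mul]
        simp only [h1, mul_zero]
        exact tendsto_const_nhds
      · have h1 : Tendsto (fun m : ℕ => s x ^ 2 / (s x ^ 2 + 1 / ((m : ℝ) + 1))) atTop (𝓝 1) := by
          have h2 : Tendsto (fun m : ℕ => s x ^ 2 + 1 / ((m : ℝ) + 1)) atTop (𝓝 (s x ^ 2 + 0)) :=
            tendsto_one_div_add_atTop_nhds_zero_nat.const_add _
          have h3 := Tendsto.div (tendsto_const_nhds (x := s x ^ 2)) h2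
            (by rw [add_zero]; exact pow_ne_zero 2 hx)
          rw [add_zero, div_self (pow_ne_zero 2 hx)] at h3
          exact h3
        have h4 := (h1.pow 2).mul_const (R x)
        rw [one_pow, one_mul] at h4
        exact h4
  refine ge_of_tendsto' hlim.neg fun m => ?_
  exact core_delta hA s S V hs2 hS2 hV2 hs0 hsym htr hmin hVs hVt hVS hder hφ hφ0
    (by positivity)

/-- The inequality with global hypotheses. -/
theorem core {φ : E n → ℝ} (hφ : Test A φ) (hφ0 : ∀ x, 0 ≤ φ x) :
    0 ≤ ∫ x, s x ^ 2 * ∑ i, pd i (pd i φ) x := by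
  have h0 := core_zero hA s S V hs2 hS2 hV2 hs0 hsym htr hmin hVs hVt hVS hder hφ hφ0
  have hbdd : ∀ {g : E n → ℝ}, Test A g → ∀ {h : E n → ℝ}, Integrable h →
      Integrable (fun x => h x * g x) := by
    intro g hg h hh
    obtain ⟨c, hc⟩ := test_bdd hg.smooth.continuous hg.compact
    exact hh.mul_bdd (c := c) hg.smooth.continuous.aestronglyMeasurable (ae_of_all _ hc)
  have hM1 : ∀ i j, Integrable (fun x => s x * S i j x) := fun i j => hs2.integrable_mul (hS2 i j)
  have hD1 : ∀ k i j, Integrable (fun x => s x * (V k i j x + V k j i x)) := fun k i j =>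
    hs2.integrable_mul ((hV2 k i j).add (hV2 k j i))
  have e1 : ∫ x, s x ^ 2 * ∑ i, pd i (pd i φ) x =
      ∑ i, ∑ j, ∫ x, s x * S j j x * pd i (pd i φ) x := by
    have h1 : ∀ᵐ x, s x ^ 2 * ∑ i, pd i (pd i φ) x =
        ∑ i, ∑ j, s x * S j j x * pd i (pd i φ) x := by
      filter_upwards [htr] with x hx
      rw [Finset.mul_sum]
      refine Finset.sum_congr rfl fun i _ => ?_
      rw [← Finset.sum_mul, ← Finset.mul_sum, hx, pow_two]
    rw [integral_congr_ae h1, integral_finsetSum]
    · refine Finset.sum_congr rfl fun i _ => ?_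
      rw [integral_finsetSum]
      exact fun j _ => hbdd (test_pd (test_pd hφ i) i) (hM1 j j)
    · exact fun i _ => integrable_finsetSum _ fun j _ => hbdd (test_pd (test_pd hφ i) i) (hM1 j j)
  have e2 : ∫ x, s x * ∑ i, (∑ j, V i j j x) * pd i φ x =
      ∑ i, ∑ j, ∫ x, s x * V i j j x * pd i φ x := by
    have hVi : ∀ i j, Integrable (fun x => s x * V i j j x * pd i φ x) := fun i j =>
      hbdd (test_pd hφ i) (hs2.integrable_mul (hV2 i j j))
    have h1 : ∀ x, s x * ∑ i, (∑ j, V i j j x) * pd i φ x =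
        ∑ i, ∑ j, s x * V i j j x * pd i φ x := by
      intro x
      rw [Finset.mul_sum]
      refine Finset.sum_congr rfl fun i _ => ?_
      rw [← Finset.sum_mul, ← Finset.mul_sum]
      ring
    rw [integral_congr_ae (ae_of_all _ h1), integral_finsetSum]
    · refine Finset.sum_congr rfl fun i _ => ?_
      rw [integral_finsetSum]
      exact fun j _ => hVi i j
    · exact fun i _ => integrable_finsetSum _ fun j _ => hVi i j
  have e3 : ∀ i j, ∫ x, s x * S j j x * pd i (pd i φ) x =
      - (2 * ∫ x, s x * V i j j x * pd i φ x) := by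
    intro i j
    rw [hder _ (test_pd hφ i) j j i, ← integral_const_mul]
    congr 1
    apply integral_congr_ae
    refine ae_of_all _ fun x => ?_
    ring
  rw [e1]
  simp only [e3, Finset.sum_neg_distrib, ← Finset.mul_sum]
  rw [e2] at h0
  linarith

end Core

/-- M7: the Bochner inequality. -/
theorem bochner {A : Set (E n)} (hA : IsOpen A) (s : E n → ℝ) (S : Fin n → Fin n → E n → ℝ)
    (V : Fin n → Fin n → Fin n → E n → ℝ)
    (hs2 : MemLp s 2 volume) (hS2 : ∀ i j, MemLp (S i j) 2 volume)
    (hV2 : ∀ k i l, MemLp (V k i l) 2 volume)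
    (hs0 : ∀ᵐ x, x ∈ A → 0 ≤ s x)
    (hsym : ∀ i j, ∀ᵐ x, x ∈ A → S i j x = S j i x)
    (htr : ∀ᵐ x, x ∈ A → ∑ i, S i i x = s x)
    (hmin : ∀ i j k l, ∀ᵐ x, x ∈ A → S i j x * S k l x = S i l x * S k j x)
    (hVs : ∀ k i l, ∀ᵐ x, x ∈ A → V k i l x = V i k l x)
    (hVt : ∀ l, ∀ᵐ x, x ∈ A → ∑ k, V k k l x = 0)
    (hVS : ∀ k i l, ∀ᵐ x, x ∈ A → ∑ m, V k i m x * S m l x = s x * V k i l x)
    (hder : ∀ φ, Test A φ → ∀ i j k, ∫ x, s x * S i j x * pd k φ x =
      - ∫ x, s x * (V k i j x + V k j i x) * φ x) :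
    ∀ φ, Test A φ → (∀ x, 0 ≤ φ x) → 0 ≤ ∫ x, s x ^ 2 * ∑ i, pd i (pd i φ) x := by
  intro φ hφ hφ0
  have hAm : MeasurableSet A := hA.measurableSet
  set s' : E n → ℝ := A.indicator s with hs'
  set S' : Fin n → Fin n → E n → ℝ := fun i j => A.indicator (S i j) with hS'
  set V' : Fin n → Fin n → Fin n → E n → ℝ := fun k i l => A.indicator (V k i l) with hV'
  have es : ∀ x ∈ A, s' x = s x := fun x hx => indicator_of_mem hx _
  have eS : ∀ i j, ∀ x ∈ A, S' i j x = S i j x := fun i j x hx => indicator_of_mem hx _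
  have eV : ∀ k i l, ∀ x ∈ A, V' k i l x = V k i l x := fun k i l x hx => indicator_of_mem hx _
  have zs : ∀ x ∉ A, s' x = 0 := fun x hx => indicator_of_notMem hx _
  have zS : ∀ i j, ∀ x ∉ A, S' i j x = 0 := fun i j x hx => indicator_of_notMem hx _
  have zV : ∀ k i l, ∀ x ∉ A, V' k i l x = 0 := fun k i l x hx => indicator_of_notMem hx _
  have key := core hA s' S' V' (hs2.indicator hAm) (fun i j => (hS2 i j).indicator hAm)
    (fun k i l => (hV2 k i l).indicator hAm)
    (by
      filter_upwards [hs0] with x hx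
      by_cases h : x ∈ A
      · rw [es x h]; exact hx h
      · rw [zs x h])
    (by
      rw [ae_all_iff]; intro i; rw [ae_all_iff]; intro j
      filter_upwards [hsym i j] with x hx
      by_cases h : x ∈ A
      · rw [eS i j x h, eS j i x h]; exact hx h
      · rw [zS i j x h, zS j i x h])
    (by
      filter_upwards [htr] with x hx
      by_cases h : x ∈ A
      · rw [es x h, ← hx h]; exact Finset.sum_congr rfl fun i _ => eS i i x h
      · rw [zs x h]; exact Finset.sum_eq_zero fun i _ => zS i i x h)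
    (by
      rw [ae_all_iff]; intro i; rw [ae_all_iff]; intro j
      rw [ae_all_iff]; intro k; rw [ae_all_iff]; intro l
      filter_upwards [hmin i j k l] with x hx
      by_cases h : x ∈ A
      · rw [eS i j x h, eS k l x h, eS i l x h, eS k j x h]; exact hx h
      · rw [zS i j x h, zS k l x h, zS i l x h, zS k j x h])
    (by
      rw [ae_all_iff]; intro k; rw [ae_all_iff]; intro i; rw [ae_all_iff]; intro l
      filter_upwards [hVs k i l] with x hx
      by_cases h : x ∈ A
      · rw [eV k i l x h, eV i k l x h]; exact hx h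
      · rw [zV k i l x h, zV i k l x h])
    (by
      rw [ae_all_iff]; intro l
      filter_upwards [hVt l] with x hx
      by_cases h : x ∈ A
      · rw [← hx h]; exact Finset.sum_congr rfl fun k _ => eV k k l x h
      · exact Finset.sum_eq_zero fun k _ => zV k k l x h)
    (by
      rw [ae_all_iff]; intro k; rw [ae_all_iff]; intro i; rw [ae_all_iff]; intro l
      filter_upwards [hVS k i l] with x hx
      by_cases h : x ∈ A
      · rw [es x h, eV k i l x h, ← hx h]
        exact Finset.sum_congr rfl fun m _ => by rw [eV k i m x h, eS m l x h]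
      · rw [zs x h, zero_mul]
        exact Finset.sum_eq_zero fun m _ => by rw [zV k i m x h, zero_mul])
    (by
      intro ψ hψ i j k
      have h1 : ∫ x, s' x * S' i j x * pd k ψ x = ∫ x, s x * S i j x * pd k ψ x := by
        apply integral_congr_ae
        refine ae_of_all _ fun x => ?_
        by_cases h : x ∈ A
        · simp only; rw [es x h, eS i j x h]
        · have h2 : pd k ψ x = 0 := pd_eq_zero (fun h3 => h (hψ.sub h3)) k
          simp only; rw [h2, mul_zero, mul_zero]
      have h2 : ∫ x, s' x * (V' k i j x + V' k j i x) * ψ x =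
          ∫ x, s x * (V k i j x + V k j i x) * ψ x := by
        apply integral_congr_ae
        refine ae_of_all _ fun x => ?_
        by_cases h : x ∈ A
        · simp only; rw [es x h, eV k i j x h, eV k j i x h]
        · have h2 : ψ x = 0 := image_eq_zero_of_notMem_tsupport (fun h3 => h (hψ.sub h3))
          simp only; rw [h2, mul_zero, mul_zero]
      rw [h1, h2]
      exact hder ψ hψ i j k)
    hφ hφ0
  have h1 : ∫ x, s' x ^ 2 * ∑ i, pd i (pd i φ) x = ∫ x, s x ^ 2 * ∑ i, pd i (pd i φ) x := by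
    apply integral_congr_ae
    refine ae_of_all _ fun x => ?_
    by_cases h : x ∈ A
    · simp only; rw [es x h]
    · have h2 : ∑ i, pd i (pd i φ) x = 0 := Finset.sum_eq_zero fun i _ =>
        pd_eq_zero (fun h3 => h (hφ.sub (tsupport_pd φ i h3))) i
      simp only; rw [h2, mul_zero, mul_zero]
  rw [← h1]
  exact key

end Pool.Agent.H20.Stab
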